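import Pool.Agent.H535R3.KM

set_option autoImplicit false
open Filter Topology Metric

namespace Pool.Agent.Results.MP_557074_an.NoRealCriticalPoints

/-- `(u, v)` solves the linear system whose ratio `Φ = v / u` is the general solution of
`dΦ/dz = (1/z) ((l + μ (z + 1/z)) Φ - (Φ² - 1) / (2 i ω))` along the unit circle `z = e^{iτ}`, that is of
`dΦ/dτ = i (l + 2 μ cos τ) Φ - (Φ² - 1) / (2 ω)`. -/
def IsSol (l : ℤ) (μ ω : ℂ) (u v : ℝ → ℂ) : Prop :=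
  ∀ τ : ℝ,
    HasDerivAt u (-(Complex.I / 2) * (l + 2 * μ * Real.cos τ) * u τ + 1 / (2 * ω) * v τ) τ ∧
    HasDerivAt v (1 / (2 * ω) * u τ + Complex.I / 2 * (l + 2 * μ * Real.cos τ) * v τ) τ

/-- `C_l`: the pairs `(μ, ω)`, both non-zero, for which the monodromy of the Riccati equation along the unit
circle is the identity: for every solution, `[u : v]` is the same point of the projective line at `τ = 2π` and at
`τ = 0`. -/
def C (l : ℤ) : Set (ℂ × ℂ) :=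
  {p | p.1 ≠ 0 ∧ p.2 ≠ 0 ∧ ∀ u v : ℝ → ℂ, IsSol l p.1 p.2 u v →
    u (2 * Real.pi) * v 0 = u 0 * v (2 * Real.pi)}

lemma scal_of_mem {l : ℤ} {μ ω : ℂ} (h : (μ, ω) ∈ C l) : H535R3.Scal ((l:ℝ):ℂ) μ (1 / (2 * ω)) := by
  intro X hX
  refine h.2.2 (fun t => (X t).1) (fun t => (X t).2) fun τ => ?_
  have h1 := H535R3.hd_fst (hX τ)
  have h2 := H535R3.hd_snd (hX τ)
  simp only [H535R3.vF, Complex.ofReal_intCast] at h1 h2
  exact ⟨h1, h2⟩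

/-- For every integer `l` and every real point `(μ₀, ω₀)` of `C_l`: the projection `(μ, ω) ↦ ω` is injective on
`C_l` near `(μ₀, ω₀)`, and for every injective holomorphic map `s ↦ (m(s), w(s))` of a disc `|s| < ρ` into `C_l`
with `(m(0), w(0)) = (μ₀, ω₀)` one has `w'(0) ≠ 0`. -/
theorem result : ∀ l : ℤ, ∀ μ₀ ω₀ : ℝ, ((μ₀ : ℂ), (ω₀ : ℂ)) ∈ C l →
    (∃ δ > 0, ∀ μ₁ μ₂ ω : ℂ, ‖μ₁ - μ₀‖ < δ → ‖μ₂ - μ₀‖ < δ → ‖ω - ω₀‖ < δ →
      (μ₁, ω) ∈ C l → (μ₂, ω) ∈ C l → μ₁ = μ₂) ∧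
    ∀ (m w : ℂ → ℂ) (ρ : ℝ), 0 < ρ → DifferentiableOn ℂ m (ball 0 ρ) →
      DifferentiableOn ℂ w (ball 0 ρ) → (∀ s ∈ ball (0:ℂ) ρ, (m s, w s) ∈ C l) →
      Set.InjOn (fun s => (m s, w s)) (ball 0 ρ) → m 0 = μ₀ → w 0 = ω₀ → deriv w 0 ≠ 0 := by
  intro l μ₀ ω₀ h
  have hμ : μ₀ ≠ 0 := by
    intro h0; exact h.1 (by simp [h0])
  have hω : ω₀ ≠ 0 := by
    intro h0; exact h.2.1 (by simp [h0])
  obtain ⟨δ, hδ, hinj⟩ := H535R3.inj_real hμ hω (scal_of_mem h)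
  have hloc : ∀ μ₁ μ₂ ω : ℂ, ‖μ₁ - μ₀‖ < δ → ‖μ₂ - μ₀‖ < δ → ‖ω - ω₀‖ < δ →
      (μ₁, ω) ∈ C l → (μ₂, ω) ∈ C l → μ₁ = μ₂ :=
    fun μ₁ μ₂ ω g1 g2 g3 s1 s2 => hinj μ₁ μ₂ ω g1 g2 g3 (scal_of_mem s1) (scal_of_mem s2)
  refine ⟨⟨δ, hδ, hloc⟩, ?_⟩
  intro m w ρ hρ hm hw hC hI hm0 hw0
  have hb : ball (0:ℂ) ρ ∈ 𝓝 0 := ball_mem_nhds _ hρ
  have cm : ContinuousAt m 0 := (hm.differentiableAt hb).continuousAt
  have cw : ContinuousAt w 0 := (hw.differentiableAt hb).continuousAt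
  obtain ⟨ρ1, hρ1, h1⟩ := Metric.continuousAt_iff.1 cm δ hδ
  obtain ⟨ρ2, hρ2, h2⟩ := Metric.continuousAt_iff.1 cw δ hδ
  set ρ' := min ρ (min ρ1 ρ2) with hρ'
  have hρ'0 : 0 < ρ' := lt_min hρ (lt_min hρ1 hρ2)
  have hsub : ball (0:ℂ) ρ' ⊆ ball 0 ρ := ball_subset_ball (min_le_left _ _)
  refine H535R3.inj_deriv hρ'0 (hw.mono hsub) ?_
  intro s hs t ht hst
  have hs1 : ‖m s - μ₀‖ < δ := by
    have := h1 (show dist s 0 < ρ1 from (mem_ball.1 hs).trans_le ((min_le_right _ _).trans (min_le_left _ _)))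
    rwa [hm0, dist_eq_norm] at this
  have ht1 : ‖m t - μ₀‖ < δ := by
    have := h1 (show dist t 0 < ρ1 from (mem_ball.1 ht).trans_le ((min_le_right _ _).trans (min_le_left _ _)))
    rwa [hm0, dist_eq_norm] at this
  have hs2 : ‖w s - ω₀‖ < δ := by
    have := h2 (show dist s 0 < ρ2 from (mem_ball.1 hs).trans_le ((min_le_right _ _).trans (min_le_right _ _)))
    rwa [hw0, dist_eq_norm] at this
  have c1 := hC s (hsub hs)
  have c2 := hC t (hsub ht)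
  rw [← hst] at c2
  have h3 := hloc (m s) (m t) (w s) hs1 ht1 hs2 c1 c2
  exact hI (hsub hs) (hsub ht) (by simp only [h3, hst])

end Pool.Agent.Results.MP_557074_an.NoRealCriticalPoints
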